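import Mathlib
import Pool.Agent.Y939.NC.Reg
import Pool.Agent.Y939.NC.Std
import Pool.Agent.TH167.SH.Fam
import Pool.Agent.TH167.SH.Conv

set_option autoImplicit false

/-!
# Negative curves: the standard form is a special irreducible curve outside of all known families

Let `P 1, …, P s`, `s ≥ 4`, be very general points of the complex projective plane and let `C` be an
irreducible curve with `C ^ 2 < 0`, of class `d H - ∑ w i E i`, which is not a `(-1)`-curve. Then
finitely many quadratic transformations carry the class of `C` to the class `d1 H - ∑ w1 i E i`,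
`d1 ≤ d`, `w1 i ≤ w i`, of an irreducible curve at other very general points, which is standard
(the degree is at least the sum of any three multiplicities) and not `Good`
(`Pool.Agent.Y939.NC.Good`); moreover `K C > 0`. So there is no negative curve other than the
`(-1)`-curves whose class lies in the orbit of a good standard class.

A class is good if, for some `k ≥ 10` of the points, `√k d < ∑ w` on them; or if on some of the
points `w` is at most a regular vector `v`, equal to it or with `χ (d; v) ≥ 0`, and at most `1` at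
the other points; or if `d ≥ 2 ^ 17 (4 m ^ 2 + 8 m + 5) ^ 4` for some `m ≥ 1` such that at most five
multiplicities are larger than `m`, or those larger than `m` have a sum
`≤ 2 d - (4 m ^ 2 + 8 m + 5)`. Regular (`Pool.Agent.Y939.NC.Regular`) are: constant vectors on
`k ≥ 37` (or `k = 21`) points, the vectors of numbers `m` and `m + 1` on `k ≥ N0` points (or on
`4 N ≥ 144`, `4 ^ (j + 2)`, `9 * 4 ^ (j + 1)`, `13 * 4 ^ j` points), those with at most `r`
different values in `[1, μ]` if `40000 r μ ^ 2 ≤ ∑ v i ^ 2`, and all those with values at most `μ` if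
`25000 (μ + 1) ^ 2 ≤ ∑ v i`, or `μ ≥ 2` and `150 μ ^ 3 ≤ ∑ v i`.
-/

namespace Pool.Agent.Results.MP_d3e5c7_ag.NegativeStandardForms

open MvPolynomial Pool.Agent.TH167 Pool.Agent.TH167.SHDefs Pool.Agent.Y939.NC
open Pool.Agent.Y536.SH (Standard)

theorem result : ∃ N0 : ℕ, ∀ s : ℕ, 4 ≤ s →
    ∃ Z : ℕ → MvPolynomial (Fin s × Fin 2) ℂ, (∀ n, Z n ≠ 0) ∧
      ∀ P : Fin s → Fin 2 → ℂ,
        (∀ n, MvPolynomial.eval (fun ij : Fin s × Fin 2 => P ij.1 ij.2) (Z n) ≠ 0) →
        ∀ (d : ℕ) (w : Fin s → ℕ) (C : MvPolynomial (Fin 3) ℂ),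
          Curve P C d w → inter d w d w < 0 → ¬ MinusOne P C d w →
          ∃ (P1 : Fin s → Fin 2 → ℂ) (d1 : ℕ) (w1 : Fin s → ℕ) (C1 : MvPolynomial (Fin 3) ℂ),
            (∀ n, MvPolynomial.eval (fun ij : Fin s × Fin 2 => P1 ij.1 ij.2) (Z n) ≠ 0) ∧
            Curve P1 C1 d1 w1 ∧ Relation.ReflTransGen Quadratic (d, w) (d1, w1) ∧
            Standard d1 w1 ∧ d1 ≤ d ∧ (∀ i, w1 i ≤ w i) ∧
            inter d1 w1 d1 w1 = inter d w d w ∧ interK d1 w1 = interK d w ∧
            0 < interK d w ∧ ¬ Good N0 d1 w1 := by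
  obtain ⟨N0, hN0⟩ := reg_exp
  refine ⟨N0, fun s hs => ?_⟩
  obtain ⟨r, rfl⟩ : ∃ r, s = r + 4 := ⟨s - 4, by omega⟩
  obtain ⟨Z, hZ, h⟩ := SH.exists_fam (Fin (r + 4) × Fin 2)
  refine ⟨Z, hZ, fun P hP0 d w C hC hneg hne => ?_⟩
  have hP := (h _).1 hP0
  obtain ⟨h1, h2, h3⟩ := SH.curve_iff.1 hC
  have hne' : ¬ (SH.ip d w d w = -1 ∧ SH.kk d w = 1) := fun h0 =>
    hne ⟨hC, by rw [SH.inter_eq, h0.1], by rw [SH.interK_eq, h0.2]⟩
  obtain ⟨M, hM⟩ : ∃ M, ∀ j, w j ≤ M := ⟨∑ j, w j, fun j =>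
    Finset.single_le_sum (fun _ _ => Nat.zero_le _) (Finset.mem_univ j)⟩
  have hw : SH.Few M d w := by
    left
    rw [Finset.filter_false_of_mem fun j _ => not_lt.2 (hM j)]
    simp
  obtain ⟨P1, d1, w1, C1, a1, a2, a3, a4, a5, a6, a7, a8⟩ :=
    Pool.Agent.Y939.NC.std_irr d P hP w hw C h1 h2 h3 hne'
  obtain ⟨c1, c2, c3⟩ := SH.quad_inv a5
  simp only at c1 c2 c3
  rw [SH.inter_eq] at hneg
  have hwd : ∀ j, w1 j ≤ d1 := fun j => SH.van_le a2.ne_zero a3 (a4 j).1
  have hK : SH.kk d1 w1 < 0 := by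
    by_contra hcon
    push Not at hcon
    have h4 : 0 ≤ SH.kk d1 w1 := hcon
    rw [SH.kk_cast] at h4
    have h5 := SH.red_ip a6 hwd (by omega)
    omega
  refine ⟨P1, d1, w1, C1, (h _).2 a1, SH.curve_iff.2 ⟨a2, a3, a4⟩, SH.chain_conv a5, a6, a7, a8,
    by rw [SH.inter_eq, SH.inter_eq, c3], by rw [SH.interK_eq, SH.interK_eq, c2], ?_, fun hG => ?_⟩
  · rw [SH.interK_eq, ← c2]
    omega
  · have h6 := good_exp hN0 (by omega) a6 hG a1
    rw [Pool.Agent.TH442.NF.expDim_iff] at h6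
    have h7 := SH.two_chi d1 w1
    have hmem : C1 ∈ W609.CR.VS (fun j => W609.CR.aff (P1 j)) w1 d1 :=
      (SH.mem_VS _ _ _ _).2 ⟨a3, fun j => (a4 j).1⟩
    have hfin := W609.CR.vs_fin (fun j => W609.CR.aff (P1 j)) w1 d1
    have hpos : 0 < Module.finrank ℂ ↥(W609.CR.VS (fun j => W609.CR.aff (P1 j)) w1 d1) :=
      Module.finrank_pos_iff.2 ⟨⟨C1, hmem⟩, 0, fun h7 => a2.ne_zero (congrArg Subtype.val h7)⟩
    have h8 : SH.chi d1 w1 ≤ 0 := by omega
    rw [max_eq_left h8] at h6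
    omega

end Pool.Agent.Results.MP_d3e5c7_ag.NegativeStandardForms
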