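import Mathlib
import Pool.Agent.TH167.SH.Conv
import Pool.Agent.TH167.SH.Defs
import Pool.Agent.Y939.XN.Few

set_option autoImplicit false

/-!
# Negative curves: different multiplicities are far from each other

Let `P 1, …, P s` be very general points of the complex projective plane and let `C` be an
irreducible curve of class `d H - ∑ w i E i` with `C ^ 2 = -k < 0`. Two different multiplicities of
`C` differ by at least `√k`. If `w i ≤ μ` for all `i` and `∑ w i ^ 2 ≥ 144 μ ^ 2`, then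
`k (∑ w i ^ 2 - 24 μ ^ 2) ^ 2 ≤ 256 μ ^ 6`.

For the first part let `w i ≠ w j`. An automorphism of the complex numbers exchanges the two points,
so it maps `C` to a different irreducible curve, which has the multiplicities `w i` and `w j`
exchanged, and the intersection number `(w i - w j) ^ 2 - k` of the two curves is nonnegative. So
`C` has at most `1 + μ / √k` different positive multiplicities; the second part follows from the
starting result `FewCoefficients`.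
-/

namespace Pool.Agent.Results.MP_d3e5c7_ag.SeparatedMultiplicities

open MvPolynomial Pool.Agent.TH167 Pool.Agent.TH167.SHDefs

theorem result (s : ℕ) :
    ∃ Z : ℕ → MvPolynomial (Fin s × Fin 2) ℂ, (∀ n, Z n ≠ 0) ∧
      ∀ P : Fin s → Fin 2 → ℂ,
        (∀ n, MvPolynomial.eval (fun ij : Fin s × Fin 2 => P ij.1 ij.2) (Z n) ≠ 0) →
        ∀ (d : ℕ) (w : Fin s → ℕ) (C : MvPolynomial (Fin 3) ℂ), Curve P C d w →
          inter d w d w < 0 →
          (∀ i j, w i ≠ w j → -inter d w d w ≤ ((w i : ℤ) - w j) ^ 2) ∧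
          ∀ μ : ℕ, (∀ i, w i ≤ μ) → 144 * μ ^ 2 ≤ ∑ i, w i ^ 2 →
            -inter d w d w * (∑ i, (w i : ℤ) ^ 2 - 24 * (μ : ℤ) ^ 2) ^ 2 ≤ 256 * (μ : ℤ) ^ 6 := by
  obtain ⟨Z, hZ, h⟩ := Pool.Agent.Y939.XN.neg_sep s
  refine ⟨Z, hZ, fun P hP0 d w C hC hneg => ?_⟩
  obtain ⟨-, hmain⟩ := h P hP0
  obtain ⟨h1, h2, h3⟩ := SH.curve_iff.1 hC
  have e1 : ∑ i, (w i : ℤ) * w i = ((∑ i, w i ^ 2 : ℕ) : ℤ) := by
    push_cast
    exact Finset.sum_congr rfl fun i _ => by ring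
  have e2 : inter d w d w = (d : ℤ) ^ 2 - ((∑ i, w i ^ 2 : ℕ) : ℤ) := by
    unfold inter
    rw [e1]
    ring
  rw [e2] at hneg ⊢
  have h4 : d ^ 2 < ∑ i, w i ^ 2 := by
    have h5 : ((d ^ 2 : ℕ) : ℤ) < ((∑ i, w i ^ 2 : ℕ) : ℤ) := by
      push_cast at hneg ⊢
      linarith
    exact_mod_cast h5
  obtain ⟨k, hk⟩ : ∃ k, ∑ i, w i ^ 2 = d ^ 2 + k := ⟨∑ i, w i ^ 2 - d ^ 2, by omega⟩
  have e3 : -((d : ℤ) ^ 2 - ((∑ i, w i ^ 2 : ℕ) : ℤ)) = (k : ℤ) := by
    rw [hk]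
    push_cast
    ring
  rw [e3]
  obtain ⟨h5, h6⟩ := hmain C d k w h1 h2 h3 (by omega) hk
  refine ⟨h5, fun μ hμ h144 => ?_⟩
  have h7 := h6 μ hμ h144
  have e4 : ((∑ i, w i ^ 2 : ℕ) : ℤ) = ∑ i, (w i : ℤ) ^ 2 := by push_cast; rfl
  rw [e4] at h7
  exact h7

end Pool.Agent.Results.MP_d3e5c7_ag.SeparatedMultiplicities
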