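import Mathlib
import Pool.Agent.Y939.WN.Large
import Pool.Agent.Y939.NC.Orbit
import Pool.Agent.Y939.NC.Std
import Pool.Agent.TH167.SH.Fam
import Pool.Agent.TH167.SH.Conv

set_option autoImplicit false

/-!
# Negative curves: no class in the Weyl group orbit is large

Let `P 1, …, P s` be very general points of the complex projective plane and let `C` be an
irreducible curve which is not a `(-1)`-curve. All classes in the orbit of its class under the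
quadratic transformations are of the form `(d'; w')` with `d', w' i ≥ 0`. If `K C ≥ C ^ 2 + 2` (that
is `χ (C) ≤ 0`), then none of them is large: if `S` is a set of points and `w' i ≤ μ` for `i ∈ S`,
`w' i ≤ 1` for `i ∉ S`, then
`∑_S w' i + 4 |(d' + 2).choose 2 - ∑_S (w' i + 1).choose 2| < 25000 (μ + 1) ^ 2`; in particular for
`w' i ≤ μ` for all `i`
`∑ w' i + 2 (K C - C ^ 2 - 2) < 25000 (μ + 1) ^ 2`, and `d' ^ 2 < 25000 μ (μ + 1) ^ 2` if
`C ^ 2 ≤ 0`. If `C ^ 2 < 0` and `s ≥ 4`, then `K C ≥ C ^ 2 + 2`.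
-/

namespace Pool.Agent.Results.MP_d3e5c7_ag.SizeOfNegativeCurves

open MvPolynomial Pool.Agent.TH167 Pool.Agent.TH167.SHDefs Pool.Agent.Y939.NC Pool.Agent.Y939.WN

/-- The reflection of the class `a = (d; w)`, `d H - ∑ w l E l`, in the class
`H - E (i 0) - E (i 1) - E (i 2)`: with `δ = d - w (i 0) - w (i 1) - w (i 2)`, the numbers
`d`, `w (i 0)`, `w (i 1)`, `w (i 2)` are increased by `δ`. -/
def reflect {s : ℕ} (i : Fin 3 → Fin s) (a : ℤ × (Fin s → ℤ)) : ℤ × (Fin s → ℤ) :=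
  (a.1 + (a.1 - a.2 (i 0) - a.2 (i 1) - a.2 (i 2)),
    fun l => a.2 l + if l = i 0 ∨ l = i 1 ∨ l = i 2 then a.1 - a.2 (i 0) - a.2 (i 1) - a.2 (i 2)
      else 0)

/-- Finitely many reflections carry the class `a` to `b`. -/
def Carries {s : ℕ} (a b : ℤ × (Fin s → ℤ)) : Prop :=
  Relation.ReflTransGen
    (fun a b : ℤ × (Fin s → ℤ) => ∃ i : Fin 3 → Fin s, Function.Injective i ∧ b = reflect i a) a b

/-- Irreducible negative curves which are not `(-1)`-curves have `K C > 0`. -/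
theorem kk_neg {r : ℕ} {P : Fin (r + 4) → Fin 2 → ℂ}
    (hP : AlgebraicIndependent ℚ (fun ij : Fin (r + 4) × Fin 2 => P ij.1 ij.2))
    {C : MvPolynomial (Fin 3) ℂ} {d : ℕ} {w : Fin (r + 4) → ℕ}
    (h1 : Irreducible C) (h2 : C.IsHomogeneous d)
    (h3 : ∀ j, W609.CR.Ord (W609.CR.aff (P j)) (w j) C)
    (hne : ¬ (SH.ip d w d w = -1 ∧ SH.kk d w = 1)) (hneg : SH.ip d w d w < 0) :
    SH.kk d w < 0 := by
  obtain ⟨M, hM⟩ : ∃ M, ∀ j, w j ≤ M := ⟨∑ j, w j, fun j =>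
    Finset.single_le_sum (fun _ _ => Nat.zero_le _) (Finset.mem_univ j)⟩
  have hw : SH.Few M d w := by
    left
    rw [Finset.filter_false_of_mem fun j _ => not_lt.2 (hM j)]
    simp
  obtain ⟨P1, d1, w1, C1, a1, a2, a3, a4, a5, a6, a7, a8⟩ :=
    Pool.Agent.Y939.NC.std_irr d P hP w hw C h1 h2 h3 hne
  obtain ⟨c1, c2, c3⟩ := SH.quad_inv a5
  simp only at c1 c2 c3
  have hwd : ∀ j, w1 j ≤ d1 := fun j => SH.van_le a2.ne_zero a3 (a4 j).1
  rw [← c2]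
  by_contra hcon
  push Not at hcon
  have h4 : 0 ≤ SH.kk d1 w1 := hcon
  rw [SH.kk_cast] at h4
  have h5 := SH.red_ip a6 hwd (by omega)
  omega

theorem result (s : ℕ) :
    ∃ Z : ℕ → MvPolynomial (Fin s × Fin 2) ℂ, (∀ n, Z n ≠ 0) ∧
      ∀ P : Fin s → Fin 2 → ℂ,
        (∀ n, MvPolynomial.eval (fun ij : Fin s × Fin 2 => P ij.1 ij.2) (Z n) ≠ 0) →
        ∀ (d : ℕ) (w : Fin s → ℕ) (C : MvPolynomial (Fin 3) ℂ),
          Curve P C d w → ¬ MinusOne P C d w →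
          (inter d w d w < 0 → 4 ≤ s → inter d w d w + 2 ≤ interK d w) ∧
          ∀ b : ℤ × (Fin s → ℤ), Carries ((d : ℤ), fun l => (w l : ℤ)) b →
            ∃ (d' : ℕ) (w' : Fin s → ℕ), b = ((d' : ℤ), fun l => (w' l : ℤ)) ∧
              (inter d w d w + 2 ≤ interK d w → ¬ Large d' w' ∧
                ∀ μ : ℕ, (∀ i, w' i ≤ μ) →
                  ∑ i, (w' i : ℤ) + 2 * (interK d w - inter d w d w - 2) <
                    25000 * ((μ : ℤ) + 1) ^ 2 ∧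
                  (inter d w d w ≤ 0 → (d' : ℤ) ^ 2 ≤ 25000 * μ * ((μ : ℤ) + 1) ^ 2)) := by
  obtain ⟨Z, hZ, h⟩ := SH.exists_fam (Fin s × Fin 2)
  refine ⟨Z, hZ, fun P hP0 d w C hC hne => ?_⟩
  have hP := (h _).1 hP0
  obtain ⟨h1, h2, h3⟩ := SH.curve_iff.1 hC
  have hne' : ¬ (SH.ip d w d w = -1 ∧ SH.kk d w = 1) := fun h0 =>
    hne ⟨hC, by rw [SH.inter_eq, h0.1], by rw [SH.interK_eq, h0.2]⟩
  refine ⟨fun h0 hs4 => ?_, fun b hb => ?_⟩
  · obtain ⟨r, rfl⟩ : ∃ r, s = r + 4 := ⟨s - 4, by omega⟩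
    rw [SH.inter_eq] at h0
    rw [SH.inter_eq, SH.interK_eq]
    have hkn := kk_neg hP h1 h2 h3 hne' h0
    have hchi := SH.two_chi d w
    omega
  have hb' : Pool.Agent.TH442.NF.Ch (Pool.Agent.TH442.NF.cls d w) b := hb
  obtain ⟨d', w', rfl, hpos, hip, hkk⟩ := orbit_eff hP h1 h2 h3 hne' hb'
  have hchi := SH.two_chi d' w'
  refine ⟨d', w', rfl, fun hK0 => ?_⟩
  have hK : interK d w = -(SH.kk d' w') := by rw [SH.interK_eq, hkk]
  have hI : inter d w d w = SH.ip d' w' d' w' := by rw [SH.inter_eq, hip]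
  rw [hK, hI] at hK0 ⊢
  have hchi0 : SH.chi d' w' ≤ 0 := by omega
  have hnl : ¬ Large d' w' := by
    intro hL
    have hE := large_exp hL hP
    rw [Pool.Agent.TH442.NF.expDim_iff] at hE
    omega
  refine ⟨hnl, fun μ hμ => ?_⟩
  have hkey : ∑ i, (w' i : ℤ) + 2 * (-(SH.kk d' w') - SH.ip d' w' d' w' - 2) <
      25000 * ((μ : ℤ) + 1) ^ 2 := by
    by_contra hcon
    push Not at hcon
    refine hnl ⟨Finset.univ, μ, fun i _ => hμ i, fun i hi => absurd (Finset.mem_univ i) hi, ?_⟩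
    have e : SH.chi d' w' = ((d' + 2).choose 2 : ℤ) - ∑ i, ((w' i + 1).choose 2 : ℤ) := rfl
    rw [← e, abs_of_nonpos hchi0]
    omega
  refine ⟨hkey, fun h0 => ?_⟩
  obtain ⟨T, hT⟩ : ∃ T : ℤ, T = ∑ i, (w' i : ℤ) := ⟨_, rfl⟩
  have hT1 : T ≤ 25000 * ((μ : ℤ) + 1) ^ 2 := by omega
  have h6 : (d' : ℤ) ^ 2 ≤ μ * T := by
    unfold SH.ip at h0
    have h7 : ∑ j, (w' j : ℤ) * w' j ≤ ∑ j, (μ : ℤ) * w' j :=
      Finset.sum_le_sum fun j _ => by
        have h8 : (w' j : ℤ) ≤ μ := by exact_mod_cast hμ j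
        exact mul_le_mul_of_nonneg_right h8 (Int.natCast_nonneg _)
    rw [← Finset.mul_sum, ← hT] at h7
    have e : (d' : ℤ) ^ 2 = d' * d' := by ring
    omega
  have h8 : (μ : ℤ) * T ≤ μ * (25000 * ((μ : ℤ) + 1) ^ 2) :=
    mul_le_mul_of_nonneg_left hT1 (Int.natCast_nonneg _)
  have e2 : 25000 * (μ : ℤ) * ((μ : ℤ) + 1) ^ 2 = μ * (25000 * ((μ : ℤ) + 1) ^ 2) := by ring
  rw [e2]
  exact h6.trans h8

end Pool.Agent.Results.MP_d3e5c7_ag.SizeOfNegativeCurves
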