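import Mathlib
import Pool.Agent.Y939.NC.Orbit
import Pool.Agent.TH167.SH.Fam

set_option autoImplicit false

/-!
# Irreducible curves whose class is close to a regular vector somewhere in the Weyl group orbit

There is an `N0` such that for all `s` and very general points `P 1, …, P s` of the complex
projective plane the following holds. Let `C` be an irreducible plane curve of degree `d` with
multiplicities `w i` at the points, whose strict transform is not a `(-1)`-curve. All classes in the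
orbit of its class under the quadratic transformations are of the form `d' H - ∑ w' i E i` with
`d', w' i ≥ 0`, and if `v ≤ w'` is any almost regular vector, then
`C ^ 2 ≥ ∑ v i - 3 d' - (∑ w' i ^ 2 - ∑ v i ^ 2)`, and
`C ^ 2 ≥ (∑ v i) / 2 - (∑ w' i ^ 2 - ∑ v i ^ 2)` if `36 v i + 18 ≤ ∑ v` for all `i`.
Hence `C ^ 2 < 0` is impossible if `36 v i + 18 ≤ ∑ v` for all `i` and the sum of the squares of the
`w' i` exceeds that of the `v i` by at most `(∑ v i) / 2`.

Almost regular (`Pool.Agent.Y939.NC.AlmostRegular`) are the vectors which are regular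
(`Pool.Agent.Y939.NC.Regular`) on some of the points and at most `1` at the others. Regular are:
constant vectors on `k ≥ 37` (or `k = 21`) points, the vectors of numbers `m` and `m + 1` on
`k ≥ N0` points (or on `4 N ≥ 144`, `4 ^ (j + 2)`, `9 * 4 ^ (j + 1)`, `13 * 4 ^ j` points), those with
at most `r` different values in `[1, μ]` if `40000 r μ ^ 2 ≤ ∑ v i ^ 2`, and all those with values at
most `μ` if `25000 (μ + 1) ^ 2 ≤ ∑ v i`, or `μ ≥ 2` and `150 μ ^ 3 ≤ ∑ v i`.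
-/

namespace Pool.Agent.Results.MP_d3e5c7_ag.TamePart

open MvPolynomial Pool.Agent.TH167 Pool.Agent.TH167.SHDefs Pool.Agent.Y939.NC

/-- The reflection of the class `a = (d; w)`, `d H - ∑ w l E l`, in the class
`H - E (i 0) - E (i 1) - E (i 2)`: with `δ = d - w (i 0) - w (i 1) - w (i 2)`, the numbers
`d`, `w (i 0)`, `w (i 1)`, `w (i 2)` are increased by `δ`. -/
def reflect {s : ℕ} (i : Fin 3 → Fin s) (a : ℤ × (Fin s → ℤ)) : ℤ × (Fin s → ℤ) :=
  (a.1 + (a.1 - a.2 (i 0) - a.2 (i 1) - a.2 (i 2)),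
    fun l => a.2 l + if l = i 0 ∨ l = i 1 ∨ l = i 2 then a.1 - a.2 (i 0) - a.2 (i 1) - a.2 (i 2)
      else 0)

/-- Finitely many reflections carry the class `a` to `b`. -/
def Carries {s : ℕ} (a b : ℤ × (Fin s → ℤ)) : Prop :=
  Relation.ReflTransGen
    (fun a b : ℤ × (Fin s → ℤ) => ∃ i : Fin 3 → Fin s, Function.Injective i ∧ b = reflect i a) a b

theorem result : ∃ N0 : ℕ, ∀ s : ℕ,
    ∃ Z : ℕ → MvPolynomial (Fin s × Fin 2) ℂ, (∀ n, Z n ≠ 0) ∧
      ∀ P : Fin s → Fin 2 → ℂ,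
        (∀ n, MvPolynomial.eval (fun ij : Fin s × Fin 2 => P ij.1 ij.2) (Z n) ≠ 0) →
        ∀ (d : ℕ) (w : Fin s → ℕ) (C : MvPolynomial (Fin 3) ℂ),
          Curve P C d w → ¬ MinusOne P C d w →
          ∀ b : ℤ × (Fin s → ℤ), Carries ((d : ℤ), fun l => (w l : ℤ)) b →
            ∃ (d' : ℕ) (w' : Fin s → ℕ), b = ((d' : ℤ), fun l => (w' l : ℤ)) ∧
              ∀ v : Fin s → ℕ, AlmostRegular N0 v → (∀ i, v i ≤ w' i) →
                ∑ i, (v i : ℝ) - 3 * d' - (∑ i, (w' i : ℝ) ^ 2 - ∑ i, (v i : ℝ) ^ 2) ≤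
                  (inter d w d w : ℝ) ∧
                ((∀ i, 36 * v i + 18 ≤ ∑ j, v j) →
                  (∑ i, (v i : ℝ)) / 2 - (∑ i, (w' i : ℝ) ^ 2 - ∑ i, (v i : ℝ) ^ 2) ≤
                    (inter d w d w : ℝ)) := by
  obtain ⟨N0, hN0⟩ := reg_exp
  refine ⟨N0, fun s => ?_⟩
  obtain ⟨Z, hZ, h⟩ := SH.exists_fam (Fin s × Fin 2)
  refine ⟨Z, hZ, fun P hP0 d w C hC hne b hb => ?_⟩
  have hP := (h _).1 hP0
  obtain ⟨h1, h2, h3⟩ := SH.curve_iff.1 hC
  have hne' : ¬ (SH.ip d w d w = -1 ∧ SH.kk d w = 1) := fun h0 =>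
    hne ⟨hC, by rw [SH.inter_eq, h0.1], by rw [SH.interK_eq, h0.2]⟩
  have hb' : Pool.Agent.TH442.NF.Ch (Pool.Agent.TH442.NF.cls d w) b := hb
  obtain ⟨d', w', rfl, hpos, hip, -⟩ := orbit_eff hP h1 h2 h3 hne' hb'
  refine ⟨d', w', rfl, fun v hv hle => ?_⟩
  have hb := reg_bound hN0 hP hv hle hpos
  obtain ⟨c1, c2⟩ := num_bound hb
  have hI : (inter d w d w : ℝ) = (d' : ℝ) ^ 2 - ∑ i, (w' i : ℝ) ^ 2 := by
    rw [SH.inter_eq, ← hip]
    unfold SH.ip
    push_cast
    rw [pow_two]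
    congr 1
    exact Finset.sum_congr rfl fun i _ => by ring
  rw [hI]
  refine ⟨by linarith, fun h36 => ?_⟩
  have := c2 h36
  linarith

end Pool.Agent.Results.MP_d3e5c7_ag.TamePart
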